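import Pool.Agent.H2.ED.Targets

/-!
# The residue degree of a function field at a regular prime
-/

set_option autoImplicit false

open MvPolynomial
open Pool.Agent.H8.TD (dg)
open Pool.Agent.H2.ED

namespace Pool.Agent.H7.ED

section expo

variable {k R κ : Type} [Field k] [CommRing R] [Field κ] [Algebra k R] [Algebra k κ]

/-- the exponential of a derivation, followed by `ρ` -/
private noncomputable def ez (ρ : R →ₐ[k] κ) (D : Derivation k R R) (z : R) : PowerSeries κ :=
  PowerSeries.mk fun n => ρ (((D : R →ₗ[k] R) ^ n) z) * ((n.factorial : κ))⁻¹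

private theorem ez_coeff_zero (ρ : R →ₐ[k] κ) (D : Derivation k R R) (z : R) :
    PowerSeries.coeff 0 (ez ρ D z) = ρ z := by
  unfold ez
  rw [PowerSeries.coeff_mk]
  simp

private theorem ez_succ (ρ : R →ₐ[k] κ) (D : Derivation k R R) (z : R) (n : ℕ) [CharZero κ] :
    PowerSeries.coeff (n + 1) (ez ρ D z) * ((n : κ) + 1) = PowerSeries.coeff n (ez ρ D (D z)) := by
  unfold ez
  rw [PowerSeries.coeff_mk, PowerSeries.coeff_mk, pow_succ, Module.End.mul_apply,
    Nat.factorial_succ]
  have h1 : (n : κ) + 1 ≠ 0 := by exact_mod_cast Nat.succ_ne_zero n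
  have h2 : ((n.factorial : ℕ) : κ) ≠ 0 := by exact_mod_cast Nat.factorial_ne_zero n
  push_cast
  field_simp

private theorem ez_add (ρ : R →ₐ[k] κ) (D : Derivation k R R) (a b : R) :
    ez ρ D (a + b) = ez ρ D a + ez ρ D b := by
  ext n
  unfold ez
  rw [map_add, PowerSeries.coeff_mk, PowerSeries.coeff_mk, PowerSeries.coeff_mk, map_add, map_add,
    add_mul]

private theorem ez_smul (ρ : R →ₐ[k] κ) (D : Derivation k R R) (c : k) (a : R) :
    ez ρ D (c • a) = c • ez ρ D a := by
  ext n
  unfold ez
  rw [PowerSeries.coeff_smul, PowerSeries.coeff_mk, PowerSeries.coeff_mk, map_smul, map_smul,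
    smul_mul_assoc]

private theorem ez_zero_of (ρ : R →ₐ[k] κ) (D : Derivation k R R) {z : R} (hz : D z = 0) :
    ez ρ D z = PowerSeries.C (ρ z) := by
  ext n
  unfold ez
  rw [PowerSeries.coeff_mk, PowerSeries.coeff_C]
  cases n with
  | zero => simp
  | succ n =>
    rw [pow_succ, Module.End.mul_apply]
    have h : (D : R →ₗ[k] R) z = 0 := hz
    rw [h, map_zero, map_zero, zero_mul, if_neg (Nat.succ_ne_zero n)]

private theorem ez_mul [CharZero κ] (ρ : R →ₐ[k] κ) (D : Derivation k R R) (a b : R) :
    ez ρ D (a * b) = ez ρ D a * ez ρ D b := by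
  have key : ∀ (n : ℕ) (a b : R), PowerSeries.coeff n (ez ρ D (a * b)) =
      PowerSeries.coeff n (ez ρ D a * ez ρ D b) := by
    intro n
    induction n with
    | zero =>
      intro a b
      rw [PowerSeries.coeff_mul, Finset.Nat.antidiagonal_zero, Finset.sum_singleton, ez_coeff_zero,
        ez_coeff_zero, ez_coeff_zero, map_mul]
    | succ n ih =>
      intro a b
      have h1 : (n : κ) + 1 ≠ 0 := by exact_mod_cast Nat.succ_ne_zero n
      have hd : ∀ z : R, PowerSeries.derivative κ (ez ρ D z) = ez ρ D (D z) := by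
        intro z
        ext m
        rw [PowerSeries.coeff_derivative, ez_succ]
      apply mul_right_cancel₀ h1
      rw [ez_succ, ← PowerSeries.coeff_derivative, Derivation.leibniz, Derivation.leibniz,
        ez_add, map_add, map_add, hd, hd, smul_eq_mul, smul_eq_mul, smul_eq_mul, smul_eq_mul,
        ih, ih]
  ext n
  exact key n a b

/-- the homomorphism -/
private noncomputable def eA [CharZero κ] (ρ : R →ₐ[k] κ) (D : Derivation k R R) :
    R →ₐ[k] PowerSeries κ :=
  AlgHom.ofLinearMap
    { toFun := ez ρ D
      map_add' := ez_add ρ D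
      map_smul' := fun c a => ez_smul ρ D c a }
    (by
      change ez ρ D 1 = 1
      rw [ez_zero_of ρ D (Derivation.map_one_eq_zero D), map_one, map_one])
    (ez_mul ρ D)

private theorem eA_apply [CharZero κ] (ρ : R →ₐ[k] κ) (D : Derivation k R R) (z : R) :
    eA ρ D z = ez ρ D z := rfl

private theorem ez_lin [CharZero κ] (ρ : R →ₐ[k] κ) (D : Derivation k R R) {z : R} (h0 : ρ z = 0)
    {c : k} (hz : D z = algebraMap k R c) :
    ez ρ D z = PowerSeries.C (algebraMap k κ c) * PowerSeries.X := by
  have h1 : ez ρ D (D z) = PowerSeries.C (algebraMap k κ c) := by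
    rw [hz, ez_zero_of ρ D (D.map_algebraMap c), AlgHom.commutes]
  ext n
  cases n with
  | zero => rw [ez_coeff_zero, h0, PowerSeries.coeff_zero_mul_X]
  | succ n =>
    rw [PowerSeries.coeff_succ_mul_X]
    have h2 : (n : κ) + 1 ≠ 0 := by exact_mod_cast Nat.succ_ne_zero n
    apply mul_right_cancel₀ h2
    rw [ez_succ, h1, PowerSeries.coeff_C]
    split_ifs with h
    · rw [h]
      simp
    · rw [zero_mul]

end expo

section deriv

variable {k R κ : Type} [Field k] [CommRing R] [Field κ] [Algebra k R] [Algebra k κ]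

private theorem sum_der {ι : Type} (s : Finset ι) (z : ι → R) (D : ι → Derivation k R R) (a : R) :
    (∑ b ∈ s, z b • D b) a = ∑ b ∈ s, z b * D b a := by
  classical
  induction s using Finset.induction_on with
  | empty => simp
  | insert b s hb ih =>
    rw [Finset.sum_insert hb, Finset.sum_insert hb, Derivation.add_apply, ih,
      Derivation.smul_apply, smul_eq_mul]

/-- derivations with prescribed values -/
private theorem exists_der (ρ : R →ₐ[k] κ) (n c r : ℕ) (D : Fin n → Derivation k R R)
    (w : Fin c → R) (y : Fin r → R) (hu : ∀ z, ρ z ≠ 0 → IsUnit z) (hn : c + r = n)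
    (hv : ∀ v : Fin n → κ, (∀ i, ∑ j, v j * ρ (D j (w i)) = 0) →
      (∀ i, ∑ j, v j * ρ (D j (y i)) = 0) → v = 0) (x : Fin c → k) :
    ∃ D' : Derivation k R R, (∀ i, D' (w i) = algebraMap k R (x i)) ∧ ∀ l, D' (y l) = 0 := by
  classical
  let e : Fin c ⊕ Fin r ≃ Fin n := finSumFinEquiv.trans (finCongr hn)
  let u : Fin c ⊕ Fin r → R := Sum.elim w y
  let M : Matrix (Fin c ⊕ Fin r) (Fin c ⊕ Fin r) R := fun a b => D (e b) (u a)
  have hdet : IsUnit M.det := by
    apply hu
    intro h0
    have h1 : (M.map ρ).det = 0 := by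
      rw [← h0]
      exact (RingHom.map_det (ρ : R →+* κ) M).symm
    obtain ⟨v, hv0, hv1⟩ := Matrix.exists_mulVec_eq_zero_iff.2 h1
    apply hv0
    have h2 : ∀ a, ∑ j, (v ∘ e.symm) j * ρ (D j (u a)) = 0 := by
      intro a
      have h3 := congrFun hv1 a
      rw [Matrix.mulVec, dotProduct, Pi.zero_apply] at h3
      rw [← h3, ← Equiv.sum_comp e]
      apply Finset.sum_congr rfl
      intro b _
      rw [Function.comp_apply, Equiv.symm_apply_apply, mul_comm]
      rfl
    have h3 := hv (v ∘ e.symm) (fun i => h2 (Sum.inl i)) (fun i => h2 (Sum.inr i))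
    funext b
    have h4 := congrFun h3 (e b)
    rw [Function.comp_apply, Equiv.symm_apply_apply] at h4
    exact h4
  let t : Fin c ⊕ Fin r → R := Sum.elim (fun i => algebraMap k R (x i)) (fun _ => 0)
  let z : Fin c ⊕ Fin r → R := Matrix.mulVec M⁻¹ t
  have hz : Matrix.mulVec M z = t := by
    simp only [z]
    rw [Matrix.mulVec_mulVec, Matrix.mul_nonsing_inv _ hdet, Matrix.one_mulVec]
  have h5 : ∀ a, (∑ b, z b • D (e b)) (u a) = t a := by
    intro a
    rw [sum_der, ← hz]
    apply Finset.sum_congr rfl
    intro b _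
    exact mul_comm _ _
  exact ⟨∑ b, z b • D (e b), fun i => h5 (Sum.inl i), fun l => h5 (Sum.inr l)⟩

end deriv

section algebraic

/-- a relation with polynomial coefficients -/
private theorem exists_rel {k K : Type} [Field k] [Field K] [Algebra k K] {ι : Type}
    (u : ι → K) [FiniteDimensional (IntermediateField.adjoin k (Set.range u)) K] (θ : K) :
    ∃ a : Fin (Module.finrank (IntermediateField.adjoin k (Set.range u)) K + 1) →
      MvPolynomial ι k, (∃ j, a j ≠ 0) ∧ ∑ j, aeval u (a j) * θ ^ (j : ℕ) = 0 := by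
  classical
  set K₀ := IntermediateField.adjoin k (Set.range u) with hK₀
  set m := Module.finrank K₀ K with hm
  have h1 : ¬ LinearIndependent K₀ (fun j : Fin (m + 1) => θ ^ (j : ℕ)) := by
    intro h
    have h2 := h.fintype_card_le_finrank
    rw [Fintype.card_fin] at h2
    omega
  rw [Fintype.linearIndependent_iff] at h1
  push Not at h1
  obtain ⟨c, hc, j₀, hj₀⟩ := h1
  have h2 : ∀ j, ∃ r s : MvPolynomial ι k, aeval u s ≠ 0 ∧ ((c j : K₀) : K) = aeval u r / aeval u s := by
    intro j
    obtain ⟨r, s, hrs⟩ := (IntermediateField.mem_adjoin_range_iff k u ((c j : K₀) : K)).1 (c j).2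
    by_cases hs : aeval u s = 0
    · refine ⟨0, 1, ?_, ?_⟩
      · rw [map_one]
        exact one_ne_zero
      · rw [hrs, hs, div_zero, map_zero, zero_div]
    · exact ⟨r, s, hs, hrs⟩
  choose r s hs hrs using h2
  refine ⟨fun j => r j * ∏ i ∈ Finset.univ.erase j, s i, ⟨j₀, ?_⟩, ?_⟩
  · apply mul_ne_zero
    · intro h0
      apply hj₀
      have h3 := hrs j₀
      rw [h0, map_zero, zero_div] at h3
      exact_mod_cast h3
    · apply Finset.prod_ne_zero_iff.2
      intro i _ h0
      apply hs i
      rw [h0, map_zero]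
  · have h3 : ∀ j, aeval u (r j * ∏ i ∈ Finset.univ.erase j, s i) =
        ((c j : K₀) : K) * ∏ i, aeval u (s i) := by
      intro j
      rw [map_mul, map_prod, ← Finset.mul_prod_erase Finset.univ (fun i => aeval u (s i))
        (Finset.mem_univ j), hrs j]
      have := hs j
      field_simp
    have h4 : ∑ j : Fin (m + 1), aeval u (r j * ∏ i ∈ Finset.univ.erase j, s i) * θ ^ (j : ℕ) =
        (∏ i, aeval u (s i)) * ∑ j : Fin (m + 1), (c j) • (θ ^ (j : ℕ)) := by
      rw [Finset.mul_sum]
      apply Finset.sum_congr rfl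
      intro j _
      rw [h3 j, Algebra.smul_def]
      have h5 : (algebraMap K₀ K) (c j) = ((c j : K₀) : K) := rfl
      rw [h5]
      ring
    rw [h4, hc, mul_zero]

end algebraic

theorem pf_RES : T_RES := by
  classical
  intro k R K κ _ _ _ _ _ _ _ _ _ _ _ ρ n c r D w y hinj hsur hunit hn hw hy hv hfin
  have hκ : CharZero κ := charZero_of_injective_algebraMap (algebraMap k κ).injective
  let u : Fin c ⊕ Fin r → R := Sum.elim w y
  have hrange : (Set.range (fun i => algebraMap R K (w i)) ∪
      Set.range (fun i => algebraMap R K (y i))) = Set.range (fun a => algebraMap R K (u a)) := by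
    have h1 : (fun a => algebraMap R K (u a)) =
        Sum.elim (fun i => algebraMap R K (w i)) (fun i => algebraMap R K (y i)) := by
      funext a
      cases a <;> rfl
    rw [h1, Set.Sum.elim_range]
  rw [hrange] at hfin ⊢
  unfold dg
  set F₀ := IntermediateField.adjoin k (Set.range fun i => ρ (y i)) with hF₀
  by_cases hfd : FiniteDimensional F₀ κ
  swap
  · rw [Module.finrank_of_not_finite hfd]
    exact Nat.zero_le _
  have hF0 : CharZero F₀ := charZero_of_injective_algebraMap (algebraMap k F₀).injective
  obtain ⟨t, ht⟩ := Field.exists_primitive_element F₀ κ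
  obtain ⟨θ, hθ⟩ := hsur t
  obtain ⟨a, ⟨j₀, hj₀⟩, ha⟩ := exists_rel (k := k) (fun a => algebraMap R K (u a)) (algebraMap R K θ)
  -- the relation in `R`
  have haR : ∑ j, aeval u (a j) * θ ^ (j : ℕ) = 0 := by
    apply hinj
    rw [map_sum, map_zero, ← ha]
    apply Finset.sum_congr rfl
    intro j _
    rw [map_mul, map_pow]
    congr 1
    exact (MvPolynomial.comp_aeval_apply u (IsScalarTower.toAlgHom k R K) (a j))
  -- the direction
  obtain ⟨x, hx⟩ : ∃ x : Fin c → k, aeval (Sum.elim (fun i => algebraMap k κ (x i))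
      (fun l => ρ (y l))) (a j₀) ≠ 0 := by
    by_contra hcon
    push Not at hcon
    apply hj₀
    apply MvPolynomial.funext
    intro z
    rw [map_zero]
    let p : MvPolynomial (Fin r) k := aeval (Sum.elim (fun i => MvPolynomial.C (z (Sum.inl i)))
      (fun l => (MvPolynomial.X l : MvPolynomial (Fin r) k))) (a j₀)
    have hp : p = 0 := by
      apply (algebraicIndependent_iff.1 hy) p
      rw [← hcon (fun i => z (Sum.inl i))]
      rw [MvPolynomial.comp_aeval_apply]
      congr 2
      funext b
      cases b with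
      | inl i => simp
      | inr l => simp
    have h1 : MvPolynomial.aeval (fun l => z (Sum.inr l)) p = MvPolynomial.eval z (a j₀) := by
      rw [MvPolynomial.comp_aeval_apply]
      have h2 : (fun b => (MvPolynomial.aeval (fun l => z (Sum.inr l)))
          ((Sum.elim (fun i => MvPolynomial.C (z (Sum.inl i)))
            (fun l => (MvPolynomial.X l : MvPolynomial (Fin r) k))) b)) = z := by
        funext b
        cases b with
        | inl i => simp
        | inr l => simp
      rw [h2]
      exact MvPolynomial.aeval_eq_eval z ▸ rfl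
    rw [← h1, hp, map_zero]
  obtain ⟨D', hD1, hD2⟩ := exists_der ρ n c r D w y hunit hn hv x
  -- the polynomials in one variable
  have hmem : ∀ l, ρ (y l) ∈ F₀ := fun l => IntermediateField.subset_adjoin _ _ ⟨l, rfl⟩
  let g : Fin c ⊕ Fin r → Polynomial F₀ := Sum.elim
    (fun i => Polynomial.C (algebraMap k F₀ (x i)) * Polynomial.X)
    (fun l => Polynomial.C ⟨ρ (y l), hmem l⟩)
  let G : Fin (Module.finrank (IntermediateField.adjoin k
    (Set.range fun a => algebraMap R K (u a))) K + 1) → Polynomial F₀ := fun j => aeval g (a j)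
  have hG : G j₀ ≠ 0 := by
    intro h0
    apply hx
    have h1 : (algebraMap F₀ κ) (Polynomial.eval 1 (G j₀)) = 0 := by
      rw [h0, Polynomial.eval_zero, map_zero]
    rw [← h1]
    let χ : Polynomial F₀ →ₐ[k] κ := (IsScalarTower.toAlgHom k F₀ κ).comp
      ((Polynomial.aeval (1 : F₀)).restrictScalars k)
    have h2 : (algebraMap F₀ κ) (Polynomial.eval 1 (G j₀)) = χ (aeval g (a j₀)) := by
      simp only [χ, G, AlgHom.comp_apply, AlgHom.restrictScalars_apply, Polynomial.coe_aeval_eq_eval]
      rfl
    rw [h2, MvPolynomial.comp_aeval_apply]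
    congr 2
    funext b
    cases b with
    | inl i =>
      simp only [χ, g, Sum.elim_inl, AlgHom.comp_apply, AlgHom.restrictScalars_apply, map_mul,
        Polynomial.aeval_C, Polynomial.aeval_X]
      rw [map_one, mul_one]
      rfl
    | inr l =>
      simp only [χ, g, Sum.elim_inr, AlgHom.comp_apply, AlgHom.restrictScalars_apply,
        Polynomial.aeval_C]
      rfl
  -- in the power series
  let χ : Polynomial F₀ →+* PowerSeries κ :=
    (Polynomial.coeToPowerSeries.ringHom).comp (Polynomial.mapRingHom (algebraMap F₀ κ))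
  have hχ : ∀ p : MvPolynomial (Fin c ⊕ Fin r) k,
      eA ρ D' (aeval u p) = χ (aeval g p) := by
    intro p
    have h1 : ((eA ρ D' : R →+* PowerSeries κ)).comp
        ((aeval u : MvPolynomial (Fin c ⊕ Fin r) k →ₐ[k] R) :
          MvPolynomial (Fin c ⊕ Fin r) k →+* R) =
        χ.comp ((aeval g : MvPolynomial (Fin c ⊕ Fin r) k →ₐ[k] Polynomial F₀) :
          MvPolynomial (Fin c ⊕ Fin r) k →+* Polynomial F₀) := by
      apply MvPolynomial.ringHom_ext
      · intro q
        simp only [RingHom.comp_apply, RingHom.coe_coe, MvPolynomial.aeval_C, AlgHom.commutes, χ,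
          Polynomial.coe_mapRingHom, Polynomial.algebraMap_apply, Polynomial.map_C,
          Polynomial.coeToPowerSeries.ringHom_apply, Polynomial.coe_C]
        rw [PowerSeries.algebraMap_apply]
        rfl
      · intro b
        simp only [RingHom.comp_apply, RingHom.coe_coe, MvPolynomial.aeval_X, eA_apply]
        cases b with
        | inl i =>
          have h2 : ez ρ D' (u (Sum.inl i)) = PowerSeries.C (algebraMap k κ (x i)) *
              PowerSeries.X := ez_lin ρ D' (hw i) (hD1 i)
          rw [h2]
          simp only [χ, g, Sum.elim_inl, RingHom.comp_apply, Polynomial.coe_mapRingHom,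
            Polynomial.map_mul, Polynomial.map_C, Polynomial.map_X,
            Polynomial.coeToPowerSeries.ringHom_apply, Polynomial.coe_mul, Polynomial.coe_C,
            Polynomial.coe_X]
          rfl
        | inr l =>
          have h2 : ez ρ D' (u (Sum.inr l)) = PowerSeries.C (ρ (y l)) :=
            ez_zero_of ρ D' (hD2 l)
          rw [h2]
          simp only [χ, g, Sum.elim_inr, RingHom.comp_apply, Polynomial.coe_mapRingHom,
            Polynomial.map_C, Polynomial.coeToPowerSeries.ringHom_apply, Polynomial.coe_C]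
          rfl
    exact RingHom.congr_fun h1 p
  have hrel : ∑ j, χ (G j) * (ez ρ D' θ) ^ (j : ℕ) = 0 := by
    have h1 := congrArg (eA ρ D') haR
    rw [map_sum, map_zero] at h1
    rw [← h1]
    apply Finset.sum_congr rfl
    intro j _
    rw [map_mul, map_pow, hχ, eA_apply]
  -- the smallest order
  have hex : ∃ s : ℕ, ∃ j, (G j).coeff s ≠ 0 := by
    by_contra hcon
    push Not at hcon
    apply hG
    ext s
    rw [hcon s j₀, Polynomial.coeff_zero]
  let s := Nat.find hex
  obtain ⟨j₁, hj₁⟩ := Nat.find_spec hex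
  have hlow : ∀ i < s, ∀ j, (G j).coeff i = 0 := by
    intro i hi j
    have h1 := Nat.find_min hex hi
    push Not at h1
    exact h1 j
  have hcoef : ∀ j i, PowerSeries.coeff i (χ (G j)) = algebraMap F₀ κ ((G j).coeff i) := by
    intro j i
    simp only [χ, RingHom.comp_apply, Polynomial.coe_mapRingHom,
      Polynomial.coeToPowerSeries.ringHom_apply, Polynomial.coeff_coe, Polynomial.coeff_map]
  have hroot : ∑ j, algebraMap F₀ κ ((G j).coeff s) * t ^ (j : ℕ) = 0 := by
    have h1 := congrArg (PowerSeries.coeff s) hrel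
    rw [map_sum, map_zero] at h1
    rw [← h1]
    apply Finset.sum_congr rfl
    intro j _
    rw [PowerSeries.coeff_mul, Finset.sum_eq_single (s, 0)]
    · rw [hcoef, PowerSeries.coeff_zero_eq_constantCoeff_apply, map_pow,
        ← PowerSeries.coeff_zero_eq_constantCoeff_apply, ez_coeff_zero, hθ]
    · rintro ⟨i, l⟩ hil hne
      rw [Finset.HasAntidiagonal.mem_antidiagonal] at hil
      have hi : i < s := by
        rcases Nat.lt_or_ge i s with h | h
        · exact h
        · exfalso
          apply hne
          have h2 : i = s := by omega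
          have h3 : l = 0 := by omega
          rw [h2, h3]
      rw [hcoef, hlow i hi j, map_zero, zero_mul]
    · intro h
      exact absurd (Finset.HasAntidiagonal.mem_antidiagonal.2 (add_zero s)) h
  -- the polynomial with root `t`
  let Q : Polynomial F₀ := ∑ j : Fin (Module.finrank (IntermediateField.adjoin k
    (Set.range fun a => algebraMap R K (u a))) K + 1),
      Polynomial.C ((G j).coeff s) * Polynomial.X ^ (j : ℕ)
  have hQ0 : Q ≠ 0 := by
    intro h0
    apply hj₁
    have h1 : Q.coeff (j₁ : ℕ) = (G j₁).coeff s := by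
      simp only [Q, Polynomial.finsetSum_coeff, Polynomial.coeff_C_mul_X_pow]
      rw [Finset.sum_eq_single j₁]
      · rw [if_pos rfl]
      · intro j _ hj
        rw [if_neg]
        intro h
        exact hj (Fin.ext h.symm)
      · intro h
        exact absurd (Finset.mem_univ _) h
    have h2 : (G j₁).coeff s = 0 := by
      rw [← h1, h0, Polynomial.coeff_zero]
    exact h2
  have hQt : Polynomial.aeval t Q = 0 := by
    simp only [Q, map_sum, map_mul, map_pow, Polynomial.aeval_C, Polynomial.aeval_X]
    exact hroot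
  have hQd : Q.natDegree ≤ Module.finrank (IntermediateField.adjoin k
      (Set.range fun a => algebraMap R K (u a))) K := by
    apply Polynomial.natDegree_sum_le_of_forall_le
    intro j _
    exact (Polynomial.natDegree_C_mul_X_pow_le _ _).trans (by omega)
  have h1 : Module.finrank F₀ κ = (minpoly F₀ t).natDegree := by
    rw [← IntermediateField.adjoin.finrank (Algebra.IsIntegral.isIntegral t), ht,
      IntermediateField.finrank_top']
  rw [h1]
  exact (Polynomial.natDegree_le_of_dvd (minpoly.dvd F₀ t hQt) hQ0).trans hQd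

end Pool.Agent.H7.ED
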